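import Pool.Agent.Helper20.FR.St

/-!
# Project R20, module PH: the diagonal form of Phillips' lemma (gliding hump)
-/

set_option autoImplicit false

namespace Pool.Agent.Helper31.R20

open Topology Filter
open Pool.Agent.Helper20.FA
open Pool.Agent.Helper20.FR

/-- A bounded functional is small on all indicators of the subsets of a suitable infinite
subset. -/
theorem small_subset (L : Bd →ₗ[ℂ] ℂ) (C : ℝ) (hL : ∀ b, ‖L b‖ ≤ C * ‖b‖)
    (Q : Set ℕ) (hQ : Q.Infinite) (δ : ℝ) (hδ : 0 < δ) (hC0 : 0 ≤ C) :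
    ∃ Q' : Set ℕ, Q' ⊆ Q ∧ Q'.Infinite ∧ ∀ S ⊆ Q', ‖L (indB S)‖ ≤ δ := by
  classical
  by_contra hcon
  push Not at hcon
  let f : ℕ ↪ Q := hQ.natEmbedding
  let g : ℕ → Set ℕ := fun i => Set.range fun m : ℕ => ((f (Nat.pair i m) : Q) : ℕ)
  have hgQ : ∀ i, g i ⊆ Q := by
    rintro i _ ⟨m, rfl⟩
    exact (f (Nat.pair i m)).2
  have hginf : ∀ i, (g i).Infinite := by
    intro i
    refine Set.infinite_range_of_injective ?_
    intro a b hab
    have h1 : f (Nat.pair i a) = f (Nat.pair i b) := Subtype.ext hab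
    have h2 := f.injective h1
    exact (Nat.pair_eq_pair.1 h2).2
  have hdis : ∀ i j l, l ∈ g i → l ∈ g j → i = j := by
    rintro i j l ⟨a, rfl⟩ ⟨b, hb⟩
    have h1 : f (Nat.pair j b) = f (Nat.pair i a) := Subtype.ext hb
    have h2 := f.injective h1
    exact (Nat.pair_eq_pair.1 h2).1.symm
  have hS : ∀ i, ∃ S ⊆ g i, δ < ‖L (indB S)‖ := fun i => hcon (g i) (hgQ i) (hginf i)
  choose S hSg hSδ using hS
  obtain ⟨K, hK⟩ := exists_nat_gt (C / δ)
  have hKδ : C < K * δ := (div_lt_iff₀ hδ).1 hK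
  let c : ℕ → ℂ := fun i => (starRingEnd ℂ) (L (indB (S i))) / ‖L (indB (S i))‖
  have hc : ∀ i, ‖c i‖ ≤ 1 := by
    intro i
    show ‖(starRingEnd ℂ) (L (indB (S i))) / ‖L (indB (S i))‖‖ ≤ 1
    rw [norm_div, RCLike.norm_conj, Complex.norm_real, norm_norm]
    exact div_self_le_one _
  let x : Bd := ∑ i ∈ Finset.range K, c i • indB (S i)
  have hxn : ∀ l, x l = ∑ i ∈ Finset.range K, c i * indB (S i) l := by
    intro l
    show (∑ i ∈ Finset.range K, c i • indB (S i)) l = _
    rw [BoundedContinuousFunction.coe_sum, Finset.sum_apply]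
    rfl
  have hx1 : ‖x‖ ≤ 1 := by
    refine (BoundedContinuousFunction.norm_le zero_le_one).2 ?_
    intro l
    rw [hxn]
    by_cases h2 : ∃ i ∈ Finset.range K, l ∈ S i
    · obtain ⟨i, hi, hli⟩ := h2
      rw [Finset.sum_eq_single i]
      · rw [indB_apply, if_pos hli, mul_one]
        exact hc i
      · intro j _ hji
        rw [indB_apply, if_neg, mul_zero]
        intro hlj
        exact hji (hdis j i l (hSg j hlj) (hSg i hli))
      · intro h3
        exact absurd hi h3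
    · push Not at h2
      rw [Finset.sum_eq_zero]
      · simp
      · intro i hi
        rw [indB_apply, if_neg (h2 i hi), mul_zero]
  have hLx : (K : ℝ) * δ ≤ ‖L x‖ := by
    have h2 : L x = ((∑ i ∈ Finset.range K, ‖L (indB (S i))‖ : ℝ) : ℂ) := by
      show L (∑ i ∈ Finset.range K, c i • indB (S i)) = _
      rw [map_sum, Complex.ofReal_sum]
      refine Finset.sum_congr rfl fun i _ => ?_
      rw [map_smul, smul_eq_mul]
      show (starRingEnd ℂ) (L (indB (S i))) / ‖L (indB (S i))‖ * _ = _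
      rw [div_mul_eq_mul_div, Complex.conj_mul']
      have h3 : ((‖L (indB (S i))‖ : ℝ) : ℂ) ≠ 0 := by
        have h6 : ‖L (indB (S i))‖ ≠ 0 := (hδ.trans (hSδ i)).ne'
        exact_mod_cast h6
      field_simp
    rw [h2, Complex.norm_real, Real.norm_of_nonneg (Finset.sum_nonneg fun i _ => norm_nonneg _)]
    calc (K : ℝ) * δ = ∑ i ∈ Finset.range K, δ := by
          rw [Finset.sum_const, Finset.card_range, nsmul_eq_mul]
      _ ≤ ∑ i ∈ Finset.range K, ‖L (indB (S i))‖ :=
          Finset.sum_le_sum fun i _ => (hSδ i).le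
  have h4 : ‖L x‖ ≤ C * 1 := (hL x).trans (mul_le_mul_of_nonneg_left hx1 hC0)
  linarith

/-- The indicator of the range of an injective sequence, split at an index. -/
theorem indB_range_split (n : ℕ → ℕ) (hn : Function.Injective n) (i : ℕ) :
    indB (Set.range n) = ∑ j ∈ Finset.range i, unB (n j) + unB (n i) + indB (n '' Set.Ioi i) := by
  classical
  rw [← Finset.sum_range_succ (fun j => unB (n j)) i]
  ext l
  show indB (Set.range n) l = (∑ j ∈ Finset.range (i + 1), unB (n j)) l + indB (n '' Set.Ioi i) l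
  have h5 : (∑ j ∈ Finset.range (i + 1), unB (n j)) l =
      ∑ j ∈ Finset.range (i + 1), (if l = n j then (1 : ℂ) else 0) := by
    rw [BoundedContinuousFunction.coe_sum, Finset.sum_apply]
    exact Finset.sum_congr rfl fun l' _ => rfl
  rw [h5, indB_apply, indB_apply]
  by_cases h1 : l ∈ Set.range n
  · obtain ⟨k, rfl⟩ := h1
    rw [if_pos ⟨k, rfl⟩]
    by_cases h2 : k ≤ i
    · rw [Finset.sum_eq_single k, if_pos rfl, if_neg, add_zero]
      · rintro ⟨j, hj, hjk⟩
        have h3 := hn hjk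
        rw [Set.mem_Ioi] at hj
        omega
      · intro j _ hjk
        rw [if_neg]
        intro h3
        exact hjk (hn h3).symm
      · intro h3
        exact absurd (Finset.mem_range.2 (Nat.lt_succ_of_le h2)) h3
    · rw [Finset.sum_eq_zero, if_pos, zero_add]
      · exact ⟨k, not_le.1 h2, rfl⟩
      · intro j hj
        rw [if_neg]
        intro h3
        have h4 := hn h3
        rw [Finset.mem_range] at hj
        omega
  · rw [if_neg h1, if_neg, Finset.sum_eq_zero, add_zero]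
    · intro j _
      rw [if_neg]
      rintro rfl
      exact h1 ⟨j, rfl⟩
    · rintro ⟨j, _, hj⟩
      exact h1 ⟨j, hj⟩

theorem hPH : StPH := by
  intro T C hC hT h0
  classical
  rw [Metric.tendsto_atTop]
  by_contra hcon
  push Not at hcon
  obtain ⟨ε, hε, hcon⟩ := hcon
  -- the set of bad indices
  let P0 : Set ℕ := {n | ε ≤ ‖T (unB n) n‖}
  have hP0 : P0.Infinite := by
    refine Nat.frequently_atTop_iff_infinite.1 ?_
    refine frequently_atTop.2 fun N => ?_
    obtain ⟨n, hn, h1⟩ := hcon N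
    rw [dist_zero_right] at h1
    exact ⟨n, hn, h1⟩
  -- one step of the construction
  have hstep : ∀ (i : ℕ) (P : {P : Set ℕ // P.Infinite}), ∃ q : ℕ × {P : Set ℕ // P.Infinite},
      q.1 ∈ P.1 ∧ q.2.1 ⊆ P.1 ∧ (∀ m ∈ q.2.1, q.1 < m) ∧
      (∀ S ⊆ q.2.1, ‖T (indB S) q.1‖ ≤ ε / 4) ∧
      (∀ m ∈ q.2.1, ‖T (unB q.1) m‖ ≤ ε / 8 * (1 / 2) ^ i) := by
    rintro i ⟨P, hP⟩
    obtain ⟨n, hn⟩ := hP.nonempty
    have hη : 0 < ε / 8 * (1 / 2) ^ i := by positivity
    have h1 : ∀ᶠ m in atTop, ‖T (unB n) m‖ ≤ ε / 8 * (1 / 2) ^ i := by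
      have h7 := (h0 (unB n)).norm
      rw [norm_zero] at h7
      exact (h7.eventually (gt_mem_nhds hη)).mono fun m hm => hm.le
    have h2 : {m | m ∈ P ∧ n < m ∧ ‖T (unB n) m‖ ≤ ε / 8 * (1 / 2) ^ i}.Infinite := by
      refine Nat.frequently_atTop_iff_infinite.1 ?_
      have h3 : ∃ᶠ m in atTop, m ∈ P := Nat.frequently_atTop_iff_infinite.2 hP
      exact h3.and_eventually ((eventually_gt_atTop n).and h1)
    obtain ⟨Q, hQ, hQinf, hQS⟩ := small_subset ((LinearMap.proj n).comp T) C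
      (fun b => hT b n) _ h2 (ε / 4) (by positivity) hC
    refine ⟨⟨n, ⟨Q, hQinf⟩⟩, hn, fun m hm => (hQ hm).1, fun m hm => (hQ hm).2.1, ?_,
      fun m hm => (hQ hm).2.2⟩
    intro S hS
    exact hQS S hS
  choose q hq1 hq2 hq3 hq4 hq5 using hstep
  let P : ℕ → {P : Set ℕ // P.Infinite} := fun i =>
    Nat.rec ⟨P0, hP0⟩ (fun i R => (q i R).2) i
  have hPs : ∀ i, P (i + 1) = (q i (P i)).2 := fun i => rfl
  let n : ℕ → ℕ := fun i => (q i (P i)).1
  have hnP : ∀ i, n i ∈ (P i).1 := fun i => hq1 i (P i)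
  have hsub : ∀ i, (P (i + 1)).1 ⊆ (P i).1 := fun i => by
    rw [hPs]
    exact hq2 i (P i)
  have hanti : Antitone fun i => (P i).1 := antitone_nat_of_succ_le hsub
  have hlt : ∀ i, ∀ m ∈ (P (i + 1)).1, n i < m := fun i => by
    rw [hPs]
    exact hq3 i (P i)
  have hsm : ∀ i, ∀ S ⊆ (P (i + 1)).1, ‖T (indB S) (n i)‖ ≤ ε / 4 := fun i => by
    rw [hPs]
    exact hq4 i (P i)
  have hun : ∀ i, ∀ m ∈ (P (i + 1)).1, ‖T (unB (n i)) m‖ ≤ ε / 8 * (1 / 2) ^ i := fun i => by
    rw [hPs]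
    exact hq5 i (P i)
  have hmono : StrictMono n := strictMono_nat_of_lt_succ fun i => hlt i _ (hnP (i + 1))
  have hlarge : ∀ i, ε / 2 ≤ ‖T (indB (Set.range n)) (n i)‖ := by
    intro i
    have h1 : T (indB (Set.range n)) (n i) = (∑ j ∈ Finset.range i, T (unB (n j)) (n i)) +
        T (unB (n i)) (n i) + T (indB (n '' Set.Ioi i)) (n i) := by
      rw [indB_range_split n hmono.injective i, map_add, map_add, map_sum]
      simp only [Pi.add_apply, Finset.sum_apply]
    have h2 : ε ≤ ‖T (unB (n i)) (n i)‖ := by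
      have h3 : n i ∈ (P 0).1 := hanti (Nat.zero_le i) (hnP i)
      exact h3
    have h3 : ‖T (indB (n '' Set.Ioi i)) (n i)‖ ≤ ε / 4 := by
      refine hsm i _ ?_
      rintro _ ⟨j, hj, rfl⟩
      exact hanti (Nat.succ_le_of_lt hj) (hnP j)
    have h4 : ‖∑ j ∈ Finset.range i, T (unB (n j)) (n i)‖ ≤ ε / 4 := by
      calc ‖∑ j ∈ Finset.range i, T (unB (n j)) (n i)‖
          ≤ ∑ j ∈ Finset.range i, ‖T (unB (n j)) (n i)‖ := norm_sum_le _ _
        _ ≤ ∑ j ∈ Finset.range i, ε / 8 * (1 / 2) ^ j := by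
            refine Finset.sum_le_sum fun j hj => hun j _ ?_
            exact hanti (Nat.succ_le_of_lt (Finset.mem_range.1 hj)) (hnP i)
        _ = ε / 8 * ∑ j ∈ Finset.range i, (1 / 2 : ℝ) ^ j := (Finset.mul_sum _ _ _).symm
        _ ≤ ε / 8 * 2 := mul_le_mul_of_nonneg_left (sum_geometric_two_le i) (by positivity)
        _ = ε / 4 := by ring
    have h5 : T (unB (n i)) (n i) = T (indB (Set.range n)) (n i) -
        (∑ j ∈ Finset.range i, T (unB (n j)) (n i)) - T (indB (n '' Set.Ioi i)) (n i) := by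
      rw [h1]
      ring
    have h6 := norm_sub_le (T (indB (Set.range n)) (n i) -
        (∑ j ∈ Finset.range i, T (unB (n j)) (n i))) (T (indB (n '' Set.Ioi i)) (n i))
    have h7 := norm_sub_le (T (indB (Set.range n)) (n i))
        (∑ j ∈ Finset.range i, T (unB (n j)) (n i))
    rw [← h5] at h6
    linarith
  have h8 := ((h0 (indB (Set.range n))).comp hmono.tendsto_atTop).norm
  rw [norm_zero] at h8
  obtain ⟨N, hN⟩ := eventually_atTop.1 (h8.eventually (gt_mem_nhds (half_pos hε)))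
  exact absurd (hN N le_rfl) (not_lt.2 (hlarge N))

end Pool.Agent.Helper31.R20
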